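import Mathlib
import Pool.Agent.H95R2.TG.Final
import Pool.Agent.H95R2.TG.H3

/-! Primes p with N < p < p + 2 < 2N such that all prime factors of p+2 are large and 1 mod 4. -/

set_option autoImplicit false

theorem Pool.Agent.Results.MP_43e117_nt.AllSplitNeighbours.result :
    ∃ c : ℝ, 0 < c ∧ ∃ N₀ : ℕ, ∀ N : ℕ, N₀ ≤ N →
      c * (N / Real.log N ^ 2) ≤
        (Set.ncard {p : ℕ | p.Prime ∧ N < p ∧ p + 2 < 2 * N ∧
          ∀ r : ℕ, r.Prime → r ∣ p + 2 → r % 4 = 1 ∧ (N : ℝ) ^ c ≤ (r : ℝ)} : ℝ) := by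
  classical
  obtain ⟨c, hc, N0, h⟩ := Pool.Agent.H95R2.TG.shft Pool.Agent.H95R2.TG.main_holds 2 (by omega) ⟨1, rfl⟩
  -- the exceptional p: N, 2N - 2, 2N - 1, 2N
  obtain ⟨N1, hN1⟩ : ∃ N1 : ℕ, ∀ N : ℕ, N1 ≤ N → 4 ≤ c / 2 * ((N : ℝ) / Real.log N ^ 2) := by
    have h1 : Filter.Tendsto (fun x : ℝ => x / Real.log x ^ 2) Filter.atTop Filter.atTop := by
      have h2 := isLittleO_log_rpow_atTop (show (0 : ℝ) < 1 / 4 by norm_num)
      have h3 := h2.bound (show (0 : ℝ) < 1 by norm_num)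
      refine Filter.tendsto_atTop_mono' Filter.atTop ?_ (tendsto_rpow_atTop (show (0 : ℝ) < 1 / 2 by norm_num))
      filter_upwards [h3, Filter.eventually_gt_atTop (2 : ℝ)] with x hx hx2
      have hx0 : (0 : ℝ) < x := by linarith
      have hl : 0 < Real.log x := Real.log_pos (by linarith)
      rw [Real.norm_of_nonneg hl.le, one_mul, Real.norm_of_nonneg (by positivity)] at hx
      rw [le_div_iff₀ (by positivity)]
      have h4 : Real.log x ^ 2 ≤ (x ^ (1 / 4 : ℝ)) ^ 2 := pow_le_pow_left₀ hl.le hx 2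
      have h5 : (x ^ (1 / 4 : ℝ)) ^ 2 = x ^ (1 / 2 : ℝ) := by
        rw [← Real.rpow_natCast, ← Real.rpow_mul hx0.le]; norm_num
      rw [h5] at h4
      calc x ^ (1 / 2 : ℝ) * Real.log x ^ 2 ≤ x ^ (1 / 2 : ℝ) * x ^ (1 / 2 : ℝ) :=
            mul_le_mul_of_nonneg_left h4 (by positivity)
        _ = x := by rw [← Real.rpow_add hx0]; norm_num
    have h2 := (h1.comp tendsto_natCast_atTop_atTop).eventually_ge_atTop (8 / c)
    obtain ⟨N1, hN1⟩ := Filter.eventually_atTop.1 h2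
    refine ⟨N1, fun N hN => ?_⟩
    have h3 : 8 / c ≤ (N : ℝ) / Real.log N ^ 2 := hN1 N hN
    calc (4 : ℝ) = c / 2 * (8 / c) := by field_simp; norm_num
      _ ≤ _ := mul_le_mul_of_nonneg_left h3 (by positivity)
  refine ⟨c / 2, by positivity, max (max N0 N1) 2, fun N hN => ?_⟩
  have hN2 : 2 ≤ N := le_trans (le_max_right _ _) hN
  have hNN : max N0 N1 ≤ N := le_trans (le_max_left _ _) hN
  have h1 := h N (le_trans (le_max_left _ _) hNN)
  have h2 := hN1 N (le_trans (le_max_right _ _) hNN)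
  set S : Set ℕ := {p : ℕ | p.Prime ∧ N < p ∧ p + 2 < 2 * N ∧
          ∀ r : ℕ, r.Prime → r ∣ p + 2 → r % 4 = 1 ∧ (N : ℝ) ^ (c / 2) ≤ (r : ℝ)} with hS
  have hfin : S.Finite := (Set.finite_Iic (2 * N)).subset fun n hn => by
    have := hn.2.2.1
    show n ≤ 2 * N
    omega
  have hsub : ((Finset.Icc N (2 * N)).filter (fun p : ℕ => p.Prime ∧
      ∀ r ∈ (p + 2).primeFactors, r % 4 = 1 ∧ (N : ℝ) ^ c ≤ (r : ℝ))) ⊆
      hfin.toFinset ∪ {N, 2 * N - 2, 2 * N - 1, 2 * N} := by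
    intro p hp
    simp only [Finset.mem_filter, Finset.mem_Icc] at hp
    obtain ⟨⟨h3, h4⟩, h5, h6⟩ := hp
    simp only [Finset.mem_union, Set.Finite.mem_toFinset, Finset.mem_insert, Finset.mem_singleton]
    by_cases h7 : p = N ∨ p = 2 * N - 2 ∨ p = 2 * N - 1 ∨ p = 2 * N
    · exact Or.inr h7
    · left
      refine ⟨h5, by omega, by omega, fun r hr hd => ?_⟩
      have h8 := h6 r (Nat.mem_primeFactors.2 ⟨hr, hd, by omega⟩)
      refine ⟨h8.1, le_trans ?_ h8.2⟩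
      have : (1 : ℝ) ≤ N := by exact_mod_cast le_trans (by norm_num) hN2
      exact Real.rpow_le_rpow_of_exponent_le this (by linarith)
  have hcard := (Finset.card_le_card hsub).trans (Finset.card_union_le _ _)
  have h4 : ({N, 2 * N - 2, 2 * N - 1, 2 * N} : Finset ℕ).card ≤ 4 := Finset.card_le_four
  have h5 : S.ncard = hfin.toFinset.card := Set.ncard_eq_toFinset_card S hfin
  have h6 : (((Finset.Icc N (2 * N)).filter (fun p : ℕ => p.Prime ∧
      ∀ r ∈ (p + 2).primeFactors, r % 4 = 1 ∧ (N : ℝ) ^ c ≤ (r : ℝ))).card : ℝ) ≤ S.ncard + 4 := by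
    rw [h5]
    exact_mod_cast le_trans hcard (by omega)
  have h7 : c * ((N : ℝ) / Real.log N ^ 2) ≤ S.ncard + 4 := by
    refine le_trans h1 (le_trans (le_of_eq ?_) h6)
    congr!
  linarith
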